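import Pool.Agent.H925R.Szpiro.Twist
import Pool.Agent.W135.RT.Par6b

/-! **Reduced models with full rational 2-torsion are minimal models with three roots**
(helper679). -/

set_option autoImplicit false

namespace Pool.Agent.Y679.Cr

open Pool.Agent.H925R.Szpiro Pool.Agent.W307.RT Pool.Agent.W135.RT

theorem D_neg (A B : ℤ) : D (-A) (-B) = -(4 * A ^ 3 + 27 * B ^ 2) := by
  unfold D
  ring

theorem isMin_of {A B : ℤ} (hD : 4 * A ^ 3 + 27 * B ^ 2 ≠ 0)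
    (hp : ∀ p : ℕ, p.Prime → ¬ ((p : ℤ) ^ 4 ∣ A ∧ (p : ℤ) ^ 6 ∣ B)) : IsMin (-A) (-B) := by
  refine ⟨by rw [D_neg]; exact neg_ne_zero.2 hD, ?_⟩
  intro u a' b' hu ha hb
  have hnd : IsCoprime (u.den : ℤ) u.num := by
    have h1 := u.reduced
    exact Int.isCoprime_iff_gcd_eq_one.2 (by
      rw [Int.gcd_comm]; exact h1 : Int.gcd (u.den : ℤ) u.num = 1)
  have hq : (u.den : ℚ) ≠ 0 := by exact_mod_cast u.den_nz
  have hue : u = (u.num : ℚ) / (u.den : ℚ) := (Rat.num_div_den u).symm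
  have h4 : (u.den : ℤ) ^ 4 ∣ A := by
    have e1 : (a' : ℚ) * (u.den : ℚ) ^ 4 = (u.num : ℚ) ^ 4 * ((-A : ℤ) : ℚ) := by
      rw [ha]
      nth_rewrite 1 [hue]
      field_simp
    have e2 : a' * (u.den : ℤ) ^ 4 = u.num ^ 4 * (-A) := by exact_mod_cast e1
    have e3 : (u.den : ℤ) ^ 4 ∣ u.num ^ 4 * (-A) := ⟨a', by rw [← e2]; ring⟩
    exact (Int.dvd_neg).1 ((IsCoprime.pow hnd).dvd_of_dvd_mul_left e3)
  have h6 : (u.den : ℤ) ^ 6 ∣ B := by
    have e1 : (b' : ℚ) * (u.den : ℚ) ^ 6 = (u.num : ℚ) ^ 6 * ((-B : ℤ) : ℚ) := by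
      rw [hb]
      nth_rewrite 1 [hue]
      field_simp
    have e2 : b' * (u.den : ℤ) ^ 6 = u.num ^ 6 * (-B) := by exact_mod_cast e1
    have e3 : (u.den : ℤ) ^ 6 ∣ u.num ^ 6 * (-B) := ⟨b', by rw [← e2]; ring⟩
    exact (Int.dvd_neg).1 ((IsCoprime.pow hnd).dvd_of_dvd_mul_left e3)
  have hden : u.den = 1 := by
    by_contra hne
    obtain ⟨p, hpp, hpd⟩ := Nat.exists_prime_and_dvd hne
    have hpd' : (p : ℤ) ∣ (u.den : ℤ) := by exact_mod_cast hpd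
    exact hp p hpp ⟨(pow_dvd_pow_of_dvd hpd' 4).trans h4, (pow_dvd_pow_of_dvd hpd' 6).trans h6⟩
  have hun : u = (u.num : ℚ) := by
    nth_rewrite 1 [hue]
    rw [hden]
    simp
  obtain ⟨n, hn⟩ : ∃ n : ℤ, n = u.num := ⟨_, rfl⟩
  rw [← hn] at hun
  have hn0 : n ≠ 0 := by
    intro h0
    apply hu
    rw [hun, h0]
    simp
  have ha2 : a' = n ^ 4 * (-A) := by
    rw [hun] at ha
    exact_mod_cast ha
  have hb2 : b' = n ^ 6 * (-B) := by
    rw [hun] at hb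
    exact_mod_cast hb
  have hDe : D a' b' = n ^ 12 * D (-A) (-B) := by
    rw [ha2, hb2]
    unfold D
    ring
  rw [hDe, abs_mul]
  have h12 : 1 ≤ |n ^ 12| := Int.one_le_abs (pow_ne_zero 12 hn0)
  have h0 : 0 ≤ |D (-A) (-B)| := abs_nonneg _
  nlinarith

theorem full_of {A B : ℤ} (hT : HasT 2 (Sh A B)) : FullS (-A) (-B) := by
  obtain ⟨P, Q, hP, hQ, hQP⟩ := hT
  obtain ⟨e1, he1, hPe1, h1⟩ := ord2 _ hP
  obtain ⟨e2, he2, hQe2, h2⟩ := ord2 _ hQ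
  have h12 : e1 ≠ e2 := by
    intro h
    subst h
    apply hQP
    rw [hQe2, ← hPe1]
    exact AddSubgroup.mem_zmultiples P
  have hA : (A : ℚ) = -(e1 ^ 2 + e1 * e2 + e2 ^ 2) := by
    have h3 : (e1 - e2) * (e1 ^ 2 + e1 * e2 + e2 ^ 2 + A) = 0 := by linear_combination h1 - h2
    have h4 := (mul_eq_zero.mp h3).resolve_left (sub_ne_zero.mpr h12)
    linarith
  have hB : (B : ℚ) = e1 * e2 * (e1 + e2) := by
    rw [hA] at h1
    linear_combination h1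
  refine ⟨e1, e2, -e1 - e2, fun x => ?_⟩
  push_cast
  rw [hA, hB]
  ring

end Pool.Agent.Y679.Cr
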