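import Pool.Agent.Y679.Cr.Core
import Pool.Agent.TH342.ShortSq
import Pool.Agent.TH841.SH.Wt

/-! **The trivial bound of the 2-Selmer group in terms of the conductor** (helper679). -/

set_option autoImplicit false

namespace Pool.Agent.Y679.Cr

open Finset Pool.Agent.H925R.Szpiro Pool.Agent.W307.RT Pool.Agent.W262.RK Pool.Agent.W307.SE
  Pool.Agent.W307.FK Pool.Agent.W410.FK Pool.Agent.TH841.SH

theorem Bd_mono {W : WeierstrassCurve ℚ} {N N' : ℝ} (h : Bd W N) (hN : N ≤ N') : Bd W N' :=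
  ⟨h.1, h.2.trans hN⟩

theorem cond_primes {a b : ℤ} {p : ℕ} (hp : p.Prime) (h5 : 5 ≤ p) (hD : D a b ≠ 0)
    (hpD : (p : ℤ) ∣ D a b) : p ∈ (condS a b).primeFactors := by
  have hmem : p ∈ (D a b).natAbs.primeFactors.filter (fun p => 5 ≤ p) :=
    mem_filter.2 ⟨Nat.mem_primeFactors.2 ⟨hp, Int.natCast_dvd.1 hpD, Int.natAbs_ne_zero.2 hD⟩, h5⟩
  have h1 : (if (p : ℤ) ∣ a then p ^ 2 else p) ∣ condS a b :=
    Finset.dvd_prod_of_mem (fun p : ℕ => if (p : ℤ) ∣ a then p ^ 2 else p) hmem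
  have h2 : p ∣ condS a b := by
    refine dvd_trans ?_ h1
    split_ifs
    · exact dvd_pow_self p two_ne_zero
    · exact dvd_rfl
  exact Nat.mem_primeFactors.2 ⟨hp, h2, (Pool.Agent.Y679.Cur.condS_pos a b).ne'⟩

theorem bd_triv {a b : ℤ} (hmin : IsMin a b) (hf : FullS a b) :
    Bd (Sh (-a) (-b)) (256 * 4 ^ (condS a b).primeFactors.card) := by
  obtain ⟨e1, e2, e3, hs, ha, hb⟩ := fullS_int a b hf
  have hx : ∀ x : ℤ, x ^ 3 + (-a) * x + (-b) = (x - e1) * (x - e2) * (x - e3) := by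
    intro x
    rw [ha, hb]
    linear_combination (x ^ 2) * hs
  have hDe : D a b = ((e2 - e1) * (e3 - e1) * ((e2 - e1) - (e3 - e1))) ^ 2 := by
    have h3 : e3 = -e1 - e2 := by linarith
    unfold D
    rw [ha, hb, h3]
    ring
  have hD0 : D a b ≠ 0 := hmin.1
  have hprod : (e2 - e1) * (e3 - e1) * ((e2 - e1) - (e3 - e1)) ≠ 0 := by
    intro h0
    apply hD0
    rw [hDe, h0]
    ring
  have hM : e2 - e1 ≠ 0 := left_ne_zero_of_mul (left_ne_zero_of_mul hprod)
  have hN : e3 - e1 ≠ 0 := right_ne_zero_of_mul (left_ne_zero_of_mul hprod)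
  have hMN : e2 - e1 ≠ e3 - e1 := sub_ne_zero.1 (right_ne_zero_of_mul hprod)
  obtain ⟨h1, h2⟩ := seld 1 (fun _ _ _ _ _ => True) (e2 - e1) (e3 - e1) hM hN hMN
    odd_one squarefree_one (fun p hp hp1 => absurd (Nat.dvd_one.1 hp1) hp.one_lt.ne')
    (fun p hp hp1 => absurd (Nat.dvd_one.1 hp1) hp.out.one_lt.ne')
  have h3 : NL 1 (fun _ _ _ _ _ => True) = 1 := by
    unfold NL
    simp
  rw [h3, mul_one] at h2
  have hD' : 4 * (-a) ^ 3 + 27 * (-b) ^ 2 ≠ 0 := by
    have : 4 * (-a) ^ 3 + 27 * (-b) ^ 2 = -(D a b) := by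
      unfold D
      ring
    rw [this, neg_ne_zero]
    exact hD0
  obtain ⟨h4, h5⟩ := selc (-a) (-b) e1 e2 e3 (e2 - e1) (e3 - e1) 1 hD' hx one_ne_zero
    (by push_cast; ring) (by push_cast; ring) h1
  refine Bd_mono (bd_selR hD' hx h4) ?_
  have h7 : ((2 * (e2 - e1) * (e3 - e1) * ((e2 - e1) - (e3 - e1))).natAbs.primeFactors.filter
      (fun q => ¬ q ∣ 1)).card ≤ (condS a b).primeFactors.card + 2 := by
    refine (card_filter_le _ _).trans ?_
    have hsub : (2 * (e2 - e1) * (e3 - e1) * ((e2 - e1) - (e3 - e1))).natAbs.primeFactors ⊆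
        (condS a b).primeFactors ∪ {2, 3} := by
      intro p hp
      obtain ⟨hpp, hpd, hp0⟩ := Nat.mem_primeFactors.1 hp
      rw [mem_union]
      by_cases h5p : 5 ≤ p
      · left
        refine cond_primes hpp h5p hD0 ?_
        have e : 2 * (e2 - e1) * (e3 - e1) * ((e2 - e1) - (e3 - e1)) =
            2 * ((e2 - e1) * (e3 - e1) * ((e2 - e1) - (e3 - e1))) := by ring
        rw [e] at hpd
        have hpd' : (p : ℤ) ∣ 2 * ((e2 - e1) * (e3 - e1) * ((e2 - e1) - (e3 - e1))) :=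
          Int.natCast_dvd.2 hpd
        rcases (Nat.prime_iff_prime_int.1 hpp).dvd_or_dvd hpd' with h | h
        · exfalso
          have := Int.le_of_dvd (by norm_num) h
          omega
        · rw [hDe]
          exact dvd_pow h two_ne_zero
      · right
        have h2p := hpp.two_le
        have h4p : p ≠ 4 := by
          rintro rfl
          norm_num at hpp
        simp only [mem_insert, mem_singleton]
        omega
    refine (card_le_card hsub).trans ((card_union_le _ _).trans ?_)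
    have : ({2, 3} : Finset ℕ).card = 2 := by decide
    rw [this]
  have h8 : (SelR (-a) (-b)).ncard ≤ 256 * 4 ^ (condS a b).primeFactors.card := by
    refine h5.trans (h2.trans ?_)
    calc 4 ^ (((2 * (e2 - e1) * (e3 - e1) * ((e2 - e1) - (e3 - e1))).natAbs.primeFactors.filter
        (fun q => ¬ q ∣ 1)).card + 2) ≤ 4 ^ ((condS a b).primeFactors.card + 4) :=
          Nat.pow_le_pow_right (by norm_num) (by omega)
      _ = 256 * 4 ^ (condS a b).primeFactors.card := by
          rw [pow_add]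
          ring
  exact_mod_cast h8

theorem bd_eps (ε : ℝ) (hε : 0 < ε) : ∃ C : ℝ, 1 ≤ C ∧ ∀ a b : ℤ, IsMin a b → FullS a b →
    Bd (Sh (-a) (-b)) (C * (condS a b : ℝ) ^ ε) := by
  obtain ⟨C0, hC0, h⟩ := Pool.Agent.Helper112.divisor_bound (ε / 2) (by positivity)
  refine ⟨max 1 (256 * C0 ^ 2), le_max_left _ _, fun a b hmin hf => Bd_mono (bd_triv hmin hf) ?_⟩
  have hpos := Pool.Agent.Y679.Cur.condS_pos a b
  have h1 := h _ hpos
  have h2 : (2 : ℝ) ^ (condS a b).primeFactors.card ≤ ((condS a b).divisors.card : ℝ) := by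
    exact_mod_cast Pool.Agent.TH342.SQ.two_pow_le _ hpos.ne'
  have h3 := h2.trans h1
  have hx : (0 : ℝ) ≤ (condS a b : ℝ) := Nat.cast_nonneg _
  have h4 : (((condS a b : ℕ) : ℝ) ^ (ε / 2)) ^ 2 = ((condS a b : ℕ) : ℝ) ^ ε := by
    rw [← Real.rpow_natCast, ← Real.rpow_mul hx]
    congr 1
    push_cast
    ring
  calc (256 : ℝ) * 4 ^ (condS a b).primeFactors.card
      = 256 * (2 ^ (condS a b).primeFactors.card) ^ 2 := by
        rw [← pow_mul, mul_comm (condS a b).primeFactors.card 2, pow_mul]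
        norm_num
    _ ≤ 256 * (C0 * ((condS a b : ℕ) : ℝ) ^ (ε / 2)) ^ 2 := by
        have := pow_le_pow_left₀ (by positivity) h3 2
        linarith
    _ = 256 * C0 ^ 2 * ((condS a b : ℕ) : ℝ) ^ ε := by
        rw [mul_pow, h4]
        ring
    _ ≤ _ := mul_le_mul_of_nonneg_right (le_max_right _ _) (by positivity)

end Pool.Agent.Y679.Cr
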