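import Pool.Agent.Y679.Cr.Tails
import Pool.Agent.Y679.Cr.Triv
import Pool.Agent.TH498.CO.Fin

/-! **The fractional moments by the conductor: all the curves, all discriminants** (helper679). -/

set_option autoImplicit false

namespace Pool.Agent.Y679.Cr

open Filter Finset Topology Pool.Agent.H925R.Szpiro Pool.Agent.W307.RT
open Pool.Agent.TH841.SH (Bd)
open Pool.Agent.TH841.SH.D (Sha ShaTor HasDiv rk)

variable {P : ℤ × ℤ → Prop}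

/-- **The fractional moments over all the curves.** -/
theorem momN (hP : Good P) {θ : ℝ} (hθ0 : 0 < θ) (hθ : θ < 2 / 3) :
    ∃ C : ℝ, 1 ≤ C ∧ ∀ f : ℤ × ℤ → ℕ, Bdd f → ∀ (Z : ℕ) (S : Finset (ℤ × ℤ)),
      (S : Set (ℤ × ℤ)) ⊆ Gm P f Z →
      ∃ n : ℤ × ℤ → ℝ, (∀ c ∈ S, Bd (Ec c) (n c)) ∧
        ∑ c ∈ S, n c ^ θ ≤ C * ((Gm P f Z).ncard : ℝ) := by
  classical
  obtain ⟨C1, hC1, hcs⟩ := Pool.Agent.TH498.CO.curves_sum θ hθ0 hθ 3 (by norm_num)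
  obtain ⟨η, C2, hη, hC2, htp⟩ := Tp_le hP
  obtain ⟨C3, hC3, heps⟩ := bd_eps (η / θ) (by positivity)
  obtain ⟨c0, hc0, hall⟩ := Gm_all hP 1
  have hC30 : 0 < C3 := by linarith
  refine ⟨max 1 ((C1 + C3 ^ θ * C2) / c0), le_max_left _ _, fun f hf Z S hS => ?_⟩
  rcases S.eq_empty_or_nonempty with hSe | hSn
  · exact ⟨fun _ => 0, by simp [hSe], by rw [hSe, sum_empty]; positivity⟩
  have hne : (Gm P f Z).Nonempty := by
    obtain ⟨c, hc⟩ := hSn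
    exact ⟨c, hS (mem_coe.2 hc)⟩
  have hZ1 : 1 ≤ Z := by
    obtain ⟨c, hc⟩ := hne
    exact (cs_pos c).trans_le (cs_le (hf c).1 hc.2)
  have hall' := hall f hf Z hne
  rw [max_eq_left hZ1] at hall'
  have hZr : (1 : ℝ) ≤ (Z : ℝ) := by exact_mod_cast hZ1
  have hZ0 : (0 : ℝ) < (Z : ℝ) := by linarith
  obtain ⟨n, hn, hsum⟩ := hcs Z hZr ((S.filter fun c => c ∉ Tp).image nu) (by
    intro q hq
    obtain ⟨c, hc, rfl⟩ := mem_image.1 hq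
    obtain ⟨h1, h2⟩ := mem_filter.1 hc
    have h3 := mem_Fc hP hf le_rfl (hS (mem_coe.2 h1)) h2
    have h4 := (maps hP.ok (fun c _ => (hf c).1) (hS (mem_coe.2 h1))).2.2
    rw [one_mul] at h4
    exact ⟨h3.1, h3.2.1, h4, h3.2.2.2⟩)
  obtain ⟨n', hn'⟩ : ∃ n' : ℤ × ℤ → ℝ, n' = fun c : ℤ × ℤ =>
    if c ∈ Tp then C3 * ((cs c : ℕ) : ℝ) ^ (η / θ) else n (nu c) := ⟨_, rfl⟩
  refine ⟨n', fun c hc => ?_, ?_⟩
  · rw [hn']
    simp only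
    split_ifs with ht
    · obtain ⟨h1, h2⟩ := hP.ok c (hS (mem_coe.2 hc)).1
      have h3 := heps _ _ h1 h2
      rw [neg_neg, neg_neg] at h3
      exact h3
    · have h3 := hn (nu c) (mem_image_of_mem _ (mem_filter.2 ⟨hc, ht⟩))
      unfold nu at h3
      simp only [neg_neg] at h3
      exact h3
  · rw [← sum_filter_add_sum_filter_not S (fun c => c ∈ Tp)]
    have h1 : ∑ c ∈ S.filter (fun c => c ∉ Tp), n' c ^ θ ≤ C1 * (Z : ℝ) ^ ((2 : ℝ) / 3) := by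
      refine le_trans (le_of_eq ?_) hsum
      rw [sum_image fun a _ b _ h => nu_inj h]
      refine sum_congr rfl fun c hc => ?_
      rw [hn']
      simp only
      rw [if_neg (mem_filter.1 hc).2]
    have h2 : ∑ c ∈ S.filter (fun c => c ∈ Tp), n' c ^ θ ≤
        C3 ^ θ * C2 * (Z : ℝ) ^ ((2 : ℝ) / 3) := by
      have h3 : ∀ c ∈ S.filter (fun c => c ∈ Tp), n' c ^ θ ≤ C3 ^ θ * (Z : ℝ) ^ η := by
        intro c hc
        obtain ⟨g1, g2⟩ := mem_filter.1 hc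
        rw [hn']
        simp only
        rw [if_pos g2, Real.mul_rpow hC30.le (by positivity), ← Real.rpow_mul (Nat.cast_nonneg _),
          div_mul_cancel₀ _ hθ0.ne']
        refine mul_le_mul_of_nonneg_left ?_ (by positivity)
        refine Real.rpow_le_rpow (Nat.cast_nonneg _) ?_ hη.le
        exact_mod_cast cs_le (hf c).1 (hS (mem_coe.2 g1)).2
      have h4 : ((S.filter fun c => c ∈ Tp).card : ℝ) ≤ C2 * (Z : ℝ) ^ ((2 : ℝ) / 3 - η) := by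
        refine le_trans ?_ (htp f hf Z hZ1)
        rw [← Set.ncard_coe_finset]
        refine Nat.cast_le.2 (Set.ncard_le_ncard (fun c hc => ?_)
          ((Gm_fin hP hf Z).subset Set.inter_subset_left))
        obtain ⟨g1, g2⟩ := mem_filter.1 (mem_coe.1 hc)
        exact ⟨hS (mem_coe.2 g1), g2⟩
      refine (sum_le_card_nsmul _ _ _ h3).trans ?_
      rw [nsmul_eq_mul]
      have h5 : (0 : ℝ) ≤ C3 ^ θ * (Z : ℝ) ^ η := by positivity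
      refine (mul_le_mul_of_nonneg_right h4 h5).trans (le_of_eq ?_)
      have h6 : (Z : ℝ) ^ ((2 : ℝ) / 3 - η) * (Z : ℝ) ^ η = (Z : ℝ) ^ ((2 : ℝ) / 3) := by
        rw [← Real.rpow_add hZ0]
        congr 1
        ring
      rw [← h6]
      ring
    have hpos : (0 : ℝ) ≤ (C1 + C3 ^ θ * C2) / c0 := by positivity
    calc _ ≤ C3 ^ θ * C2 * (Z : ℝ) ^ ((2 : ℝ) / 3) + C1 * (Z : ℝ) ^ ((2 : ℝ) / 3) :=
          add_le_add h2 h1
      _ = (C1 + C3 ^ θ * C2) / c0 * (c0 * (Z : ℝ) ^ ((2 : ℝ) / 3)) := by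
          field_simp
          ring
      _ ≤ (C1 + C3 ^ θ * C2) / c0 * ((Gm P f Z).ncard : ℝ) :=
          mul_le_mul_of_nonneg_left hall' hpos
      _ ≤ _ := mul_le_mul_of_nonneg_right (le_max_right _ _) (Nat.cast_nonneg _)

/-- **The moments of the weight.** -/
theorem mom (hP : Good P) {θ : ℝ} (hθ0 : 0 < θ) (hθ : θ < 2 / 3) :
    ∃ C : ℝ, ∀ f : ℤ × ℤ → ℕ, Bdd f → ∀ Z k : ℕ, 1 ≤ k → ∀ S : Finset (ℤ × ℤ),
      (S : Set (ℤ × ℤ)) = Gm P f Z →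
      ∑ c ∈ S, ((2 : ℝ) ^ rk (Ec c) *
        (Nat.card (ShaTor (Ec c) (2 ^ k)) : ℝ) ^ ((1 : ℝ) / k)) ^ θ ≤
          C * ((Gm P f Z).ncard : ℝ) := by
  obtain ⟨C, hC, h⟩ := momN hP hθ0 hθ
  refine ⟨C, fun f hf Z k hk S hS => ?_⟩
  obtain ⟨n, hn, hsum⟩ := h f hf Z S hS.le
  refine (sum_le_sum fun c hc => ?_).trans hsum
  exact Real.rpow_le_rpow (by positivity) ((hn c hc).wt_le hk) hθ0.le

/-- **The average rank.** -/
theorem avg (hP : Good P) : ∃ C : ℝ, ∀ f : ℤ × ℤ → ℕ, Bdd f → ∀ Z : ℕ, ∀ S : Finset (ℤ × ℤ),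
      (S : Set (ℤ × ℤ)) = Gm P f Z →
      ∑ c ∈ S, (rk (Ec c) : ℝ) ≤ C * ((Gm P f Z).ncard : ℝ) := by
  obtain ⟨C, hC, h⟩ := momN hP (θ := 1 / 2) (by norm_num) (by norm_num)
  refine ⟨3 * C, fun f hf Z S hS => ?_⟩
  obtain ⟨n, hn, hsum⟩ := h f hf Z S hS.le
  have h1 : ∀ c ∈ S, (rk (Ec c) : ℝ) ≤ 3 * n c ^ ((1 : ℝ) / 2) := by
    intro c hc
    have h2 := (hn c hc).div_le le_rfl (δ := 0) ⟨0, fun _ _ _ => Subsingleton.elim _ _⟩
    rw [add_zero] at h2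
    have h3 : ((2 : ℝ) ^ rk (Ec c)) ^ ((1 : ℝ) / 2) ≤ n c ^ ((1 : ℝ) / 2) :=
      Real.rpow_le_rpow (by positivity) h2 (by norm_num)
    have h4 : ((2 : ℝ) ^ rk (Ec c)) ^ ((1 : ℝ) / 2) = (Real.sqrt 2) ^ rk (Ec c) := by
      rw [Real.sqrt_eq_rpow, ← Real.rpow_natCast, ← Real.rpow_natCast,
        ← Real.rpow_mul (by norm_num), ← Real.rpow_mul (by norm_num), mul_comm]
    have h5 : 1 + (rk (Ec c) : ℝ) * (Real.sqrt 2 - 1) ≤ (1 + (Real.sqrt 2 - 1)) ^ rk (Ec c) :=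
      one_add_mul_le_pow (by linarith [Real.sqrt_nonneg 2]) _
    have h6 : (4 : ℝ) / 3 ≤ Real.sqrt 2 := Real.le_sqrt_of_sq_le (by norm_num)
    have h7 : 1 + (Real.sqrt 2 - 1) = Real.sqrt 2 := by ring
    rw [h7, ← h4] at h5
    have h8 : (0 : ℝ) ≤ rk (Ec c) := Nat.cast_nonneg _
    nlinarith
  refine (sum_le_sum h1).trans ?_
  rw [← mul_sum]
  linarith

/-- **The tails, for every conductor.** -/
theorem hi (hP : Good P) {θ : ℝ} (hθ0 : 0 < θ) (hθ : θ < 2 / 3) :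
    ∃ C : ℝ, ∀ f : ℤ × ℤ → ℕ, Bdd f → ∀ Z r : ℕ,
      ((Gm P f Z ∩ Hi r).ncard : ℝ) ≤ C * (2 : ℝ) ^ (-(θ * r)) * ((Gm P f Z).ncard : ℝ) := by
  classical
  obtain ⟨C, hC, h⟩ := momN hP hθ0 hθ
  refine ⟨C, fun f hf Z r => ?_⟩
  have hfin : (Gm P f Z ∩ Hi r).Finite := (Gm_fin hP hf Z).subset Set.inter_subset_left
  obtain ⟨S, hS⟩ : ∃ S : Finset (ℤ × ℤ), (S : Set (ℤ × ℤ)) = Gm P f Z ∩ Hi r :=
    ⟨hfin.toFinset, Set.Finite.coe_toFinset _⟩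
  obtain ⟨n, hn, hsum⟩ := h f hf Z S (by rw [hS]; exact Set.inter_subset_left)
  rw [← hS, Set.ncard_coe_finset]
  have h1 : ∀ c ∈ S, (2 : ℝ) ^ (θ * r) ≤ n c ^ θ := by
    intro c hc
    have hc' : c ∈ (S : Set (ℤ × ℤ)) := mem_coe.2 hc
    rw [hS] at hc'
    obtain ⟨m, h2, h3⟩ := hc'.2
    have h4 := (hn c hc).div_le le_rfl h2
    have h5 : (2 : ℝ) ^ r ≤ n c := (pow_le_pow_right₀ (by norm_num) h3).trans h4
    calc (2 : ℝ) ^ (θ * r) = ((2 : ℝ) ^ r) ^ θ := by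
          rw [← Real.rpow_natCast, ← Real.rpow_mul (by norm_num), mul_comm]
      _ ≤ _ := Real.rpow_le_rpow (by positivity) h5 hθ0.le
  have h2 := card_nsmul_le_sum S _ _ h1
  rw [nsmul_eq_mul] at h2
  have h3 : (0 : ℝ) < (2 : ℝ) ^ (θ * r) := by positivity
  rw [Real.rpow_neg (by norm_num), mul_assoc, mul_comm (((2 : ℝ) ^ (θ * r))⁻¹), ← mul_assoc,
    ← div_eq_mul_inv, le_div_iff₀ h3]
  exact h2.trans hsum

end Pool.Agent.Y679.Cr
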