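import Pool.Agent.Y679.Cr.Core

/-! **Proportions in the family ordered by the conductor** (helper679). -/

set_option autoImplicit false

namespace Pool.Agent.Y679.Cr

open Filter Finset Topology Pool.Agent.H925R.Szpiro Pool.Agent.W307.RT

variable {P : ℤ × ℤ → Prop}

/-- what is used of the property `P` -/
structure Good (P : ℤ × ℤ → Prop) : Prop where
  ok : ∀ c, P c → Ok c
  cv : ∀ H, ∀ c ∈ Cv 2 H, P c
  low : LOW 2 6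

/-- an admissible factor -/
def Bdd (f : ℤ × ℤ → ℕ) : Prop := ∀ c, 1 ≤ f c ∧ f c ≤ 62208

theorem Gm_fin (hP : Good P) {f : ℤ × ℤ → ℕ} (hf : Bdd f) (Z : ℕ) : (Gm P f Z).Finite :=
  fin hP.ok (fun c _ => (hf c).1) Z

theorem Gm_up (hP : Good P) : ∃ (C : ℝ) (Z0 : ℕ), 0 < C ∧ ∀ f : ℤ × ℤ → ℕ, Bdd f →
    ∀ Z : ℕ, Z0 ≤ Z → ((Gm P f Z).ncard : ℝ) ≤ C * (Z : ℝ) ^ ((2 : ℝ) / 3) := by
  obtain ⟨C, Z0, hC, h⟩ := upper
  exact ⟨C, Z0, hC, fun f hf Z hZ => h P hP.ok f (fun c _ => (hf c).1) Z hZ⟩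

theorem Gm_ge (hP : Good P) : ∃ (c : ℝ) (Z0 : ℕ), 0 < c ∧ ∀ f : ℤ × ℤ → ℕ, Bdd f →
    ∀ Z : ℕ, Z0 ≤ Z → c * (Z : ℝ) ^ ((2 : ℝ) / 3) ≤ ((Gm P f Z).ncard : ℝ) := by
  obtain ⟨c, Z0, hc, h⟩ := low2 hP.low
  refine ⟨c, Z0, hc, fun f hf Z hZ => (h Z hZ).trans ?_⟩
  rw [← Set.ncard_coe_finset]
  exact_mod_cast Set.ncard_le_ncard (sub hP.ok hP.cv (fun c _ => (hf c).2) Z) (Gm_fin hP hf Z)

theorem Gm_tendsto (hP : Good P) {f : ℤ × ℤ → ℕ} (hf : Bdd f) :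
    Tendsto (fun Z : ℕ => (Gm P f Z).ncard) atTop atTop := by
  obtain ⟨c, Z0, hc, h⟩ := Gm_ge hP
  rw [← tendsto_natCast_atTop_iff (R := ℝ)]
  refine tendsto_atTop_mono' atTop (eventually_atTop.2 ⟨Z0, fun Z hZ => h f hf Z hZ⟩) ?_
  refine Tendsto.const_mul_atTop hc ?_
  exact (tendsto_rpow_atTop (by norm_num)).comp tendsto_natCast_atTop_atTop

/-- from the ordering by the height to the ordering by the conductor -/
theorem pos (hP : Good P) {T : ℤ × ℤ → Prop} (hT : ∃ c : ℝ, 0 < c ∧ ∃ H0 : ℕ, ∀ H : ℕ, H0 ≤ H →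
      ∃ S : Finset (ℤ × ℤ), (S : Set (ℤ × ℤ)) ⊆ {k | k ∈ Cv 2 H ∧ T k} ∧
      c * ((Cv 2 H).card : ℝ) ≤ (S.card : ℝ)) :
    ∃ δ : ℝ, 0 < δ ∧ ∀ f : ℤ × ℤ → ℕ, Bdd f → ∀ᶠ Z : ℕ in atTop,
      δ ≤ ((Gm P f Z ∩ {k | T k}).ncard : ℝ) / (Gm P f Z).ncard := by
  obtain ⟨c, hc, H0, h⟩ := hT
  obtain ⟨C, Z1, hC, hup⟩ := Gm_up hP
  obtain ⟨c', Z2, hc', hlo⟩ := low2 hP.low
  refine ⟨c * c' / C, by positivity, fun f hf => ?_⟩
  filter_upwards [eventually_ge_atTop Z1, eventually_ge_atTop Z2,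
    eventually_ge_atTop (62208 * (H0 + 1)), (Gm_tendsto hP hf).eventually_ge_atTop 1] with
    Z h1 h2 h3 h4
  have h4' : (0 : ℝ) < ((Gm P f Z).ncard : ℝ) := by exact_mod_cast h4
  rw [le_div_iff₀ h4']
  have h5 : H0 ≤ (Z / 62208) ^ 2 := by
    have h6 : H0 + 1 ≤ Z / 62208 := by
      rw [Nat.le_div_iff_mul_le (by norm_num)]
      linarith
    nlinarith
  obtain ⟨S, hS, hcard⟩ := h _ h5
  have h7 : (S.card : ℝ) ≤ ((Gm P f Z ∩ {k | T k}).ncard : ℝ) := by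
    rw [← Set.ncard_coe_finset]
    refine Nat.cast_le.2 (Set.ncard_le_ncard (fun k hk => ?_)
      ((Gm_fin hP hf Z).subset Set.inter_subset_left))
    have h8 := hS hk
    exact ⟨sub hP.ok hP.cv (fun c _ => (hf c).2) Z (mem_coe.2 h8.1), h8.2⟩
  refine le_trans ?_ h7
  refine le_trans ?_ hcard
  have h9 := hlo Z h2
  have h10 := hup f hf Z h1
  calc c * c' / C * ((Gm P f Z).ncard : ℝ) ≤ c * c' / C * (C * (Z : ℝ) ^ ((2 : ℝ) / 3)) :=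
        mul_le_mul_of_nonneg_left h10 (by positivity)
    _ = c * (c' * (Z : ℝ) ^ ((2 : ℝ) / 3)) := by
        field_simp
    _ ≤ _ := mul_le_mul_of_nonneg_left h9 hc.le

/-- the curves of large discriminant -/
def Tp : Set (ℤ × ℤ) := {c | (cs c : ℤ) ^ 3 < |D (-c.1) (-c.2)|}

theorem Tp_le (hP : Good P) : ∃ (η C : ℝ), 0 < η ∧ 0 < C ∧ ∀ f : ℤ × ℤ → ℕ, Bdd f →
    ∀ Z : ℕ, 1 ≤ Z → (((Gm P f Z ∩ Tp).ncard : ℕ) : ℝ) ≤ C * (Z : ℝ) ^ ((2 : ℝ) / 3 - η) := by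
  obtain ⟨η, C, hη, hC, h⟩ := top
  exact ⟨η, C, hη, hC, fun f hf Z hZ => h P hP.ok f (fun c _ => (hf c).1) Z hZ⟩

/-- the curves of large discriminant have density zero -/
theorem Tp_zero (hP : Good P) {f : ℤ × ℤ → ℕ} (hf : Bdd f) :
    Tendsto (fun Z : ℕ => ((Gm P f Z ∩ Tp).ncard : ℝ) / (Gm P f Z).ncard) atTop (𝓝 0) := by
  obtain ⟨η, C, hη, hC, h⟩ := Tp_le hP
  obtain ⟨c, Z0, hc, hlo⟩ := Gm_ge hP
  have hlim : Tendsto (fun Z : ℕ => C / c * (Z : ℝ) ^ (-η)) atTop (𝓝 0) := by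
    have := ((tendsto_rpow_neg_atTop hη).comp tendsto_natCast_atTop_atTop).const_mul (C / c)
    rwa [mul_zero] at this
  refine squeeze_zero' (Eventually.of_forall fun Z => by positivity) ?_ hlim
  filter_upwards [eventually_ge_atTop 1, eventually_ge_atTop Z0] with Z h1 h2
  have hZ : (0 : ℝ) < Z := by exact_mod_cast h1
  have h3 := hlo f hf Z h2
  have h4 := h f hf Z h1
  have h5 : (0 : ℝ) < c * (Z : ℝ) ^ ((2 : ℝ) / 3) := by positivity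
  rw [div_le_iff₀ (h5.trans_le h3)]
  calc (((Gm P f Z ∩ Tp).ncard : ℕ) : ℝ) ≤ C * (Z : ℝ) ^ ((2 : ℝ) / 3 - η) := h4
    _ = C / c * (Z : ℝ) ^ (-η) * (c * (Z : ℝ) ^ ((2 : ℝ) / 3)) := by
        rw [sub_eq_add_neg, Real.rpow_add hZ]
        field_simp
    _ ≤ _ := mul_le_mul_of_nonneg_left h3 (by positivity)

/-- a lower bound for all the nonempty families -/
theorem Gm_all (hP : Good P) (M : ℕ) : ∃ c : ℝ, 0 < c ∧ ∀ f : ℤ × ℤ → ℕ, Bdd f →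
    ∀ Z : ℕ, (Gm P f Z).Nonempty →
      c * ((max Z M : ℕ) : ℝ) ^ ((2 : ℝ) / 3) ≤ ((Gm P f Z).ncard : ℝ) := by
  obtain ⟨c, Z0, hc, hlo⟩ := Gm_ge hP
  obtain ⟨Q, hQ⟩ : ∃ Q : ℝ, Q = ((max Z0 M + 1 : ℕ) : ℝ) ^ ((2 : ℝ) / 3) := ⟨_, rfl⟩
  have hQ0 : 0 < Q := by rw [hQ]; positivity
  refine ⟨min c (1 / Q), by positivity, fun f hf Z hne => ?_⟩
  by_cases hZ : max Z0 M + 1 ≤ Z
  · have h1 : max Z M = Z := max_eq_left (by omega)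
    rw [h1]
    refine le_trans ?_ (hlo f hf Z (by omega))
    exact mul_le_mul_of_nonneg_right (min_le_left _ _) (by positivity)
  · have h2 : (1 : ℝ) ≤ ((Gm P f Z).ncard : ℝ) := by
      exact_mod_cast (Set.ncard_pos (Gm_fin hP hf Z)).2 hne
    refine le_trans ?_ h2
    have h3 : ((max Z M : ℕ) : ℝ) ^ ((2 : ℝ) / 3) ≤ Q := by
      rw [hQ]
      refine Real.rpow_le_rpow (Nat.cast_nonneg _) ?_ (by norm_num)
      exact_mod_cast (by omega : max Z M ≤ max Z0 M + 1)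
    calc min c (1 / Q) * ((max Z M : ℕ) : ℝ) ^ ((2 : ℝ) / 3) ≤ 1 / Q * Q :=
          mul_le_mul (min_le_right _ _) h3 (by positivity) (by positivity)
      _ = 1 := by field_simp

end Pool.Agent.Y679.Cr
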