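import Pool.Agent.Y679.Fin2
import Pool.Agent.Y679.Dtop
import Pool.Agent.W307.RT.Defs

/-! **The curves with full rational 2-torsion by the conductor, in the coordinates of
`y² = x³ + A x + B`** (helper679). -/

set_option autoImplicit false

namespace Pool.Agent.Y679.Cr

open Filter Finset Topology Pool.Agent.H925R.Szpiro Pool.Agent.Y679.Par Pool.Agent.Y679.Cur

/-- minimal models with three roots, in the coordinates of `y² = x³ + A x + B` -/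
def Ok (c : ℤ × ℤ) : Prop := IsMin (-c.1) (-c.2) ∧ FullS (-c.1) (-c.2)

/-- the prime-to-6 part of the conductor -/
def cs (c : ℤ × ℤ) : ℕ := condS (-c.1) (-c.2)

/-- the change of coordinates -/
def nu (c : ℤ × ℤ) : ℤ × ℤ := (-c.1, -c.2)

theorem nu_nu (c : ℤ × ℤ) : nu (nu c) = c := by
  unfold nu
  simp

theorem nu_inj : Function.Injective nu := fun a b h => by
  rw [← nu_nu a, h, nu_nu]

/-- the curves with the property `P` and `f c * N₆ ≤ Z` -/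
def Gm (P : ℤ × ℤ → Prop) (f : ℤ × ℤ → ℕ) (Z : ℕ) : Set (ℤ × ℤ) := {c | P c ∧ f c * cs c ≤ Z}

theorem cs_pos (c : ℤ × ℤ) : 0 < cs c := condS_pos _ _

theorem cs_le {f : ℤ × ℤ → ℕ} {c : ℤ × ℤ} {Z : ℕ} (hf : 1 ≤ f c) (h : f c * cs c ≤ Z) :
    cs c ≤ Z := (Nat.le_mul_of_pos_left _ hf).trans h

theorem maps {P : ℤ × ℤ → Prop} (hP : ∀ c, P c → Ok c) {f : ℤ × ℤ → ℕ}
    (hf : ∀ c, P c → 1 ≤ f c) {Z : ℕ} {c : ℤ × ℤ} (hc : c ∈ Gm P f Z) :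
    nu c ∈ Md (fun _ => 1) (Z : ℝ) := by
  have h1 := hP c hc.1
  refine ⟨h1.1, h1.2, ?_⟩
  have h2 := cs_le (hf c hc.1) hc.2
  unfold cs at h2
  unfold nu
  rw [one_mul]
  exact_mod_cast h2

theorem fin1 (Z : ℕ) : (Md (fun _ => 1) (Z : ℝ)).Finite := by
  refine (Md_fin (lam := fun _ => 1) (fun _ _ _ => le_rfl)
    (N := (Z : ℝ) + 1) (by linarith [Nat.cast_nonneg (α := ℝ) Z])).subset ?_
  rintro q ⟨a, b, c⟩
  exact ⟨a, b, c.trans (by linarith)⟩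

theorem fin {P : ℤ × ℤ → Prop} (hP : ∀ c, P c → Ok c) {f : ℤ × ℤ → ℕ}
    (hf : ∀ c, P c → 1 ≤ f c) (Z : ℕ) : (Gm P f Z).Finite := by
  refine Set.Finite.of_finite_image ((fin1 Z).subset ?_) (nu_inj.injOn)
  rintro q ⟨c, hc, rfl⟩
  exact maps hP hf hc

theorem upper : ∃ (C : ℝ) (Z0 : ℕ), 0 < C ∧ ∀ (P : ℤ × ℤ → Prop), (∀ c, P c → Ok c) →
    ∀ f : ℤ × ℤ → ℕ, (∀ c, P c → 1 ≤ f c) → ∀ Z : ℕ, Z0 ≤ Z →
    ((Gm P f Z).ncard : ℝ) ≤ C * (Z : ℝ) ^ ((2 : ℝ) / 3) := by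
  have hfac : Fac (fun _ => 1) :=
    ⟨fun _ _ _ => ⟨le_rfl, by norm_num⟩, fun m => ⟨0, fun _ _ _ _ _ _ _ _ _ _ _ _ => rfl⟩⟩
  obtain ⟨K, κ, hK, -, -, hlim, -⟩ := dist hfac
  have h1 := (hlim.comp tendsto_natCast_atTop_atTop).eventually_lt_const (lt_add_one K)
  obtain ⟨Z0, hZ0⟩ := eventually_atTop.1 h1
  refine ⟨K + 1, max Z0 1, by linarith, fun P hP f hf Z hZ => ?_⟩
  have h2 := hZ0 Z ((le_max_left _ _).trans hZ)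
  have hZ1 : 1 ≤ Z := (le_max_right _ _).trans hZ
  have hZr : (0 : ℝ) < (Z : ℝ) ^ ((2 : ℝ) / 3) :=
    Real.rpow_pos_of_pos (by exact_mod_cast hZ1) _
  simp only [Function.comp] at h2
  rw [div_lt_iff₀ hZr] at h2
  refine le_trans ?_ h2.le
  have h3 : (nu '' Gm P f Z).ncard ≤ (Md (fun _ => 1) (Z : ℝ)).ncard := by
    refine Set.ncard_le_ncard ?_ (fin1 Z)
    rintro q ⟨c, hc, rfl⟩
    exact maps hP hf hc
  rw [Set.ncard_image_of_injective _ nu_inj] at h3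
  exact_mod_cast h3

/-- few curves of large discriminant -/
theorem top : ∃ (η C : ℝ), 0 < η ∧ 0 < C ∧ ∀ (P : ℤ × ℤ → Prop), (∀ c, P c → Ok c) →
    ∀ f : ℤ × ℤ → ℕ, (∀ c, P c → 1 ≤ f c) → ∀ Z : ℕ, 1 ≤ Z →
    (({c : ℤ × ℤ | c ∈ Gm P f Z ∧ (cs c : ℤ) ^ 3 < |D (-c.1) (-c.2)|}.ncard : ℕ) : ℝ) ≤
      C * (Z : ℝ) ^ ((2 : ℝ) / 3 - η) := by
  obtain ⟨η, C, hη, hC, h⟩ := Up_le (δ := 1) one_pos
  refine ⟨η, C, hη, hC, fun P hP f hf Z hZ => ?_⟩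
  refine le_trans ?_ (h (fun _ => 1) (fun _ _ _ => le_rfl) Z (by exact_mod_cast hZ))
  have h3 : (nu '' {c : ℤ × ℤ | c ∈ Gm P f Z ∧ (cs c : ℤ) ^ 3 < |D (-c.1) (-c.2)|}).ncard ≤
      ({q : ℤ × ℤ | q ∈ Md (fun _ => 1) (Z : ℝ) ∧
      (condS q.1 q.2 : ℝ) ^ (2 + (1 : ℝ)) < |((D q.1 q.2 : ℤ) : ℝ)|}).ncard := by
    refine Set.ncard_le_ncard ?_ ((fin1 Z).subset fun q hq => hq.1)
    rintro q ⟨c, ⟨hc, hc2⟩, rfl⟩
    refine ⟨maps hP hf hc, ?_⟩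
    have e : (2 + (1 : ℝ)) = ((3 : ℕ) : ℝ) := by norm_num
    rw [e, Real.rpow_natCast]
    unfold cs at hc2
    unfold nu
    exact_mod_cast hc2
  rw [Set.ncard_image_of_injective _ nu_inj] at h3
  exact_mod_cast h3

/-- the curves of small height -/
theorem cv_le {A B : ℤ} {H M : ℕ} (hok : Ok (A, B)) (h1 : 4 * |A| ^ 3 ≤ H)
    (hH : H ≤ M ^ 2) : cs (A, B) ≤ M := by
  obtain ⟨w, hw, he⟩ := quot hok.1 hok.2
  have h2 : D (-A) (-B) = -4 * A ^ 3 - 27 * B ^ 2 := by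
    unfold D
    ring
  have h3 : -A ^ 3 ≤ |A| ^ 3 := by
    rw [← abs_pow]
    exact neg_le_abs _
  have h4 : ((w * condS (-A) (-B) : ℕ) : ℤ) ^ 2 ≤ H := by
    rw [← he]
    show D (-A) (-B) ≤ _
    rw [h2]
    nlinarith [sq_nonneg B]
  have h5 : (w * condS (-A) (-B)) ^ 2 ≤ M ^ 2 := by
    refine le_trans ?_ hH
    exact_mod_cast h4
  have h6 := (Nat.pow_le_pow_iff_left (by norm_num : (2 : ℕ) ≠ 0)).1 h5
  unfold cs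
  exact (Nat.le_mul_of_pos_left _ hw).trans h6

theorem sub {P : ℤ × ℤ → Prop} (hP : ∀ c, P c → Ok c)
    (hPC : ∀ H, ∀ c ∈ Pool.Agent.W307.RT.Cv 2 H, P c) {f : ℤ × ℤ → ℕ}
    (hf : ∀ c, P c → f c ≤ 62208) (Z : ℕ) :
    (Pool.Agent.W307.RT.Cv 2 ((Z / 62208) ^ 2) : Set (ℤ × ℤ)) ⊆ Gm P f Z := by
  classical
  intro c hc
  have hc' := mem_coe.1 hc
  have hPc := hPC _ c hc'
  refine ⟨hPc, ?_⟩
  unfold Pool.Agent.W307.RT.Cv at hc'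
  have h1 := (mem_filter.1 hc').2.2.1
  obtain ⟨A, B⟩ := c
  have h2 := cv_le (hP _ hPc) (by exact_mod_cast h1) (le_refl _) (M := Z / 62208)
  calc f (A, B) * cs (A, B) ≤ 62208 * (Z / 62208) := Nat.mul_le_mul (hf _ hPc) h2
    _ ≤ Z := Nat.mul_div_le Z 62208

/-- there are many curves of small height -/
theorem low1 (hlow : Pool.Agent.W307.RT.LOW 2 6) : ∃ (c : ℝ) (M0 : ℕ), 0 < c ∧ ∀ M : ℕ, M0 ≤ M →
    c * (M : ℝ) ^ ((2 : ℝ) / 3) ≤ ((Pool.Agent.W307.RT.Cv 2 (M ^ 2)).card : ℝ) := by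
  obtain ⟨c, C, T0, hc, h⟩ := hlow
  obtain ⟨x, hx⟩ : ∃ x : ℕ → ℝ, x = fun M : ℕ => ((M : ℝ) ^ 2 / (C + 1)) ^ ((1 : ℝ) / 6) := ⟨_, rfl⟩
  have hC : (0 : ℝ) < (C : ℝ) + 1 := by positivity
  have hxt : Tendsto x atTop atTop := by
    rw [hx]
    refine (tendsto_rpow_atTop (by norm_num)).comp ?_
    refine Tendsto.atTop_div_const hC ?_
    exact (tendsto_pow_atTop (by norm_num)).comp tendsto_natCast_atTop_atTop
  obtain ⟨M0, hM0⟩ := eventually_atTop.1 ((hxt.eventually_ge_atTop ((T0 : ℝ) + 1)).and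
    (hxt.eventually_ge_atTop 2))
  refine ⟨c / 4 / ((C : ℝ) + 1) ^ ((1 : ℝ) / 3), M0, by positivity, fun M hM => ?_⟩
  obtain ⟨h1, h2⟩ := hM0 M hM
  have hx0 : 0 ≤ x M := by linarith
  have h3 : (⌊x M⌋₊ : ℝ) ≤ x M := Nat.floor_le hx0
  have h4 : x M < ⌊x M⌋₊ + 1 := Nat.lt_floor_add_one _
  have h5 : T0 ≤ ⌊x M⌋₊ := Nat.le_floor (by linarith)
  have h6 : x M ^ 6 = (M : ℝ) ^ 2 / (C + 1) := by
    rw [hx]
    simp only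
    rw [← Real.rpow_natCast, ← Real.rpow_mul (by positivity)]
    norm_num
  have h7 : C * ⌊x M⌋₊ ^ 6 ≤ M ^ 2 := by
    have h8 : (⌊x M⌋₊ : ℝ) ^ 6 ≤ x M ^ 6 := pow_le_pow_left₀ (Nat.cast_nonneg _) h3 6
    have h9 : ((C : ℝ) + 1) * (⌊x M⌋₊ : ℝ) ^ 6 ≤ (M : ℝ) ^ 2 := by
      rw [h6, le_div_iff₀ hC] at h8
      linarith
    have h10 : (C : ℝ) * (⌊x M⌋₊ : ℝ) ^ 6 ≤ (M : ℝ) ^ 2 := by
      have : (0 : ℝ) ≤ (⌊x M⌋₊ : ℝ) ^ 6 := by positivity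
      linarith
    exact_mod_cast h10
  refine le_trans ?_ (h _ _ h5 h7)
  have h11 : x M / 2 ≤ ⌊x M⌋₊ := by linarith
  have h12 : (x M / 2) ^ 2 ≤ (⌊x M⌋₊ : ℝ) ^ 2 := pow_le_pow_left₀ (by positivity) h11 2
  have h13 : x M ^ 2 = (M : ℝ) ^ ((2 : ℝ) / 3) / ((C : ℝ) + 1) ^ ((1 : ℝ) / 3) := by
    rw [hx]
    simp only
    rw [← Real.rpow_natCast, ← Real.rpow_mul (by positivity),
      Real.div_rpow (by positivity) hC.le, ← Real.rpow_natCast (M : ℝ) 2,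
      ← Real.rpow_mul (Nat.cast_nonneg _)]
    norm_num
  calc c / 4 / ((C : ℝ) + 1) ^ ((1 : ℝ) / 3) * (M : ℝ) ^ ((2 : ℝ) / 3)
      = c * (x M / 2) ^ 2 := by
        rw [div_pow, h13]
        ring
    _ ≤ c * (⌊x M⌋₊ : ℝ) ^ 2 := mul_le_mul_of_nonneg_left h12 hc.le

theorem low2 (hlow : Pool.Agent.W307.RT.LOW 2 6) : ∃ (c : ℝ) (Z0 : ℕ), 0 < c ∧ ∀ Z : ℕ, Z0 ≤ Z →
    c * (Z : ℝ) ^ ((2 : ℝ) / 3) ≤ ((Pool.Agent.W307.RT.Cv 2 ((Z / 62208) ^ 2)).card : ℝ) := by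
  obtain ⟨c, M0, hc, h⟩ := low1 hlow
  refine ⟨c / (124416 : ℝ) ^ ((2 : ℝ) / 3), 62208 * (M0 + 2), by positivity, fun Z hZ => ?_⟩
  have h1 : M0 + 2 ≤ Z / 62208 := by
    rw [Nat.le_div_iff_mul_le (by norm_num)]
    linarith
  refine le_trans ?_ (h _ (by omega))
  have h2 : (Z : ℝ) / 124416 ≤ ((Z / 62208 : ℕ) : ℝ) := by
    have h3 : Z ≤ 124416 * (Z / 62208) := by omega
    have h4 : (Z : ℝ) ≤ 124416 * ((Z / 62208 : ℕ) : ℝ) := by exact_mod_cast h3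
    rw [div_le_iff₀ (by norm_num)]
    linarith
  have h5 := Real.rpow_le_rpow (by positivity) h2 (by norm_num : (0 : ℝ) ≤ (2 : ℝ) / 3)
  rw [Real.div_rpow (Nat.cast_nonneg _) (by norm_num)] at h5
  calc c / (124416 : ℝ) ^ ((2 : ℝ) / 3) * (Z : ℝ) ^ ((2 : ℝ) / 3)
      = c * ((Z : ℝ) ^ ((2 : ℝ) / 3) / (124416 : ℝ) ^ ((2 : ℝ) / 3)) := by ring
    _ ≤ _ := mul_le_mul_of_nonneg_left h5 hc.le

end Pool.Agent.Y679.Cr
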