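import Pool.Agent.Y679.Cr.Dens
import Pool.Agent.Results.MP_6073f3_nt.ConductorTails

/-! **The tails, ordering by the conductor without a bound on the discriminant** (helper679). -/

set_option autoImplicit false

namespace Pool.Agent.Y679.Cr

open Filter Finset Topology Pool.Agent.H925R.Szpiro Pool.Agent.W307.RT
open Pool.Agent.TH841.SH.D (Sha ShaTor HasDiv rk)
open Pool.Agent.Results.MP_6073f3_nt

/-- the curve `y² = x³ + A x + B` -/
def Ec (c : ℤ × ℤ) : WeierstrassCurve ℚ := ⟨0, 0, 0, (c.1 : ℚ), (c.2 : ℚ)⟩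

theorem E_nu (c : ℤ × ℤ) : ConductorTails.E (nu c) = Ec c := by
  unfold ConductorTails.E nu Ec
  simp

/-- the size for the other coordinates -/
noncomputable def ct (f : ℤ × ℤ → ℕ) (a b : ℤ) : ℝ := ((f (-a, -b) * condS a b : ℕ) : ℝ)

theorem ct_ok {f : ℤ × ℤ → ℕ} (hf : Bdd f) (a b : ℤ) (_h1 : ConductorTails.IsMinimal a b)
    (_h2 : ConductorTails.FullTwoTorsion a b) :
    (ConductorTails.Cond6 a b : ℝ) ≤ ct f a b ∧
      ct f a b ≤ 2 ^ 8 * 3 ^ 5 * (ConductorTails.Cond6 a b : ℝ) := by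
  obtain ⟨h3, h4⟩ := hf (-a, -b)
  have e : ConductorTails.Cond6 a b = condS a b := rfl
  rw [e]
  unfold ct
  constructor
  · exact_mod_cast Nat.le_mul_of_pos_left _ h3
  · have : f (-a, -b) * condS a b ≤ 2 ^ 8 * 3 ^ 5 * condS a b :=
      Nat.mul_le_mul_right _ (h4.trans (by norm_num))
    exact_mod_cast this

/-- the family of the starting theorem -/
def Fc (f : ℤ × ℤ → ℕ) (N : ℝ) : Set (ℤ × ℤ) := ConductorTails.Fam (ct f) 3 N

theorem mem_Fc {P : ℤ × ℤ → Prop} (hP : Good P) {f : ℤ × ℤ → ℕ} (hf : Bdd f) {Z : ℕ} {N : ℝ}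
    (hN : (Z : ℝ) ≤ N) {c : ℤ × ℤ} (hc : c ∈ Gm P f Z) (ht : c ∉ Tp) : nu c ∈ Fc f N := by
  obtain ⟨h1, h2⟩ := hP.ok c hc.1
  refine ⟨h1, h2, ?_, ?_⟩
  · unfold ct nu
    simp only [neg_neg]
    have h3 : f (c.1, c.2) * condS (-c.1) (-c.2) ≤ Z := hc.2
    exact le_trans (by exact_mod_cast h3) hN
  · have h3 : |D (-c.1) (-c.2)| ≤ (cs c : ℤ) ^ 3 := not_lt.1 ht
    have h4 := cs_le (hf c).1 hc.2
    have e : (3 : ℝ) = ((3 : ℕ) : ℝ) := by norm_num
    rw [e, Real.rpow_natCast]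
    have h5 : ((|D (-c.1) (-c.2)| : ℤ) : ℝ) ≤ ((cs c : ℕ) : ℝ) ^ 3 := by exact_mod_cast h3
    have h6 : ((cs c : ℕ) : ℝ) ≤ N := le_trans (by exact_mod_cast h4) hN
    have h7 : ((cs c : ℕ) : ℝ) ^ 3 ≤ N ^ 3 := pow_le_pow_left₀ (Nat.cast_nonneg _) h6 3
    refine le_trans ?_ (h5.trans h7)
    push_cast
    exact le_rfl

/-- the comparison of the proportions -/
theorem compare {P : ℤ × ℤ → Prop} (hP : Good P) {f : ℤ × ℤ → ℕ} (hf : Bdd f)
    (hup : ∃ C : ℝ, ∀ N : ℝ, 4 * 10 ^ 7 ≤ N → (Fc f N).Finite ∧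
      ((Fc f N).ncard : ℝ) ≤ C * N ^ ((2 : ℝ) / 3)) :
    ∃ R : ℝ, 0 < R ∧ ∀ᶠ Z : ℕ in atTop, ∀ T S : Set (ℤ × ℤ), (∀ c ∈ S, c ∉ Tp → nu c ∈ T) →
      ((Gm P f Z ∩ S).ncard : ℝ) / (Gm P f Z).ncard ≤
        R * ConductorTails.proportion (ct f) 3 T Z +
          ((Gm P f Z ∩ Tp).ncard : ℝ) / (Gm P f Z).ncard := by
  obtain ⟨C, hC⟩ := hup
  obtain ⟨c, Z0, hc, hlo⟩ := Gm_ge hP
  refine ⟨max C 1 / c, by positivity, ?_⟩
  filter_upwards [eventually_ge_atTop Z0, eventually_ge_atTop (4 * 10 ^ 7)] with Z h1 h2 T S hTS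
  obtain ⟨h3, h4⟩ := hC Z (by exact_mod_cast h2)
  have h5 := hlo f hf Z h1
  have hZ : (0 : ℝ) < Z := by
    have : 0 < Z := lt_of_lt_of_le (by norm_num) h2
    exact_mod_cast this
  have h6 : (0 : ℝ) < (Gm P f Z).ncard := lt_of_lt_of_le (by positivity) h5
  have h7 : ((Gm P f Z ∩ S).ncard : ℝ) ≤ ((Fc f Z ∩ T).ncard : ℝ) +
      ((Gm P f Z ∩ Tp).ncard : ℝ) := by
    have h8 : nu '' (Gm P f Z ∩ S) ⊆ (Fc f Z ∩ T) ∪ nu '' (Gm P f Z ∩ Tp) := by
      rintro q ⟨c, ⟨hc1, hc2⟩, rfl⟩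
      by_cases ht : c ∈ Tp
      · exact Or.inr ⟨c, ⟨hc1, ht⟩, rfl⟩
      · exact Or.inl ⟨mem_Fc hP hf le_rfl hc1 ht, hTS c hc2 ht⟩
    have h9 : (nu '' (Gm P f Z ∩ Tp)).Finite :=
      ((Gm_fin hP hf Z).subset Set.inter_subset_left).image _
    have h10 := Set.ncard_le_ncard h8 ((h3.subset Set.inter_subset_left).union h9)
    have h11 := h10.trans (Set.ncard_union_le _ _)
    rw [Set.ncard_image_of_injective _ nu_inj, Set.ncard_image_of_injective _ nu_inj] at h11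
    exact_mod_cast h11
  rw [div_le_iff₀ h6, add_mul, div_mul_cancel₀ _ h6.ne']
  refine h7.trans (add_le_add ?_ le_rfl)
  have h12 : ((Fc f Z ∩ T).ncard : ℝ) =
      ConductorTails.proportion (ct f) 3 T Z * ((Fc f Z).ncard : ℝ) := by
    unfold ConductorTails.proportion
    rcases Nat.eq_zero_or_pos (Fc f Z).ncard with h13 | h13
    · have h14 : (Fc f Z ∩ T).ncard = 0 := by
        have := Set.ncard_le_ncard (Set.inter_subset_left (s := Fc f Z) (t := T)) h3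
        omega
      rw [h14, h13]
      simp
    · have h14 : ((Fc f Z).ncard : ℝ) ≠ 0 := by exact_mod_cast h13.ne'
      show _ = ((Fc f Z ∩ T).ncard : ℝ) / ((Fc f Z).ncard : ℝ) * ((Fc f Z).ncard : ℝ)
      rw [div_mul_cancel₀ _ h14]
  rw [h12]
  have h15 := ConductorTails.proportion_nonneg (ct f) 3 T Z
  calc ConductorTails.proportion (ct f) 3 T Z * ((Fc f Z).ncard : ℝ)
      ≤ ConductorTails.proportion (ct f) 3 T Z * (max C 1 * (Z : ℝ) ^ ((2 : ℝ) / 3)) :=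
        mul_le_mul_of_nonneg_left (h4.trans (mul_le_mul_of_nonneg_right (le_max_left _ _)
          (by positivity))) h15
    _ = max C 1 / c * ConductorTails.proportion (ct f) 3 T Z *
          (c * (Z : ℝ) ^ ((2 : ℝ) / 3)) := by
        field_simp
    _ ≤ _ := mul_le_mul_of_nonneg_left h5 (by positivity)

/-- the curves with `rank + corank Ш[2 ^ ∞] ≥ r` -/
def Hi (r : ℕ) : Set (ℤ × ℤ) := {c | ∃ m : ℕ, HasDiv (Ec c) m ∧ r ≤ rk (Ec c) + m}

/-- **Ranks and Tate-Shafarevich groups by the conductor, all discriminants.** -/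
theorem tails {P : ℤ × ℤ → Prop} (hP : Good P) : ∃ X : Set (ℤ × ℤ), ∀ f : ℤ × ℤ → ℕ, Bdd f →
    Tendsto (fun Z : ℕ => ((Gm P f Z ∩ X).ncard : ℝ) / (Gm P f Z).ncard) atTop (𝓝 0) ∧
    (∀ c, P c → ∀ k : ℕ, Finite (ShaTor (Ec c) (2 ^ k))) ∧
    (∀ θ : ℝ, 0 < θ → ∃ C : ℝ, ∀ Z k : ℕ, 1 ≤ k →
      ∀ S : Finset (ℤ × ℤ), (S : Set (ℤ × ℤ)) = Gm P f Z \ X →
      ∑ c ∈ S, ((2 : ℝ) ^ rk (Ec c) *
        (Nat.card (ShaTor (Ec c) (2 ^ k)) : ℝ) ^ ((1 : ℝ) / k)) ^ θ ≤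
          C * ((Gm P f Z).ncard : ℝ)) ∧
    ∀ A : ℝ, Tendsto (fun r : ℕ => A ^ r * limsup (fun Z : ℕ =>
      ((Gm P f Z ∩ Hi r).ncard : ℝ) / (Gm P f Z).ncard) atTop) atTop (𝓝 0) := by
  classical
  obtain ⟨X0, hX0⟩ := ConductorTails.result
  refine ⟨{c | nu c ∈ X0} ∪ Tp, fun f hf => ?_⟩
  obtain ⟨⟨C0, hC0⟩, hdens, hshafin, hmom, htail⟩ := hX0 3 (by norm_num) (ct f) (ct_ok hf)
  have hup : ∃ C : ℝ, ∀ N : ℝ, 4 * 10 ^ 7 ≤ N → (Fc f N).Finite ∧
      ((Fc f N).ncard : ℝ) ≤ C * N ^ ((2 : ℝ) / 3) :=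
    ⟨C0, fun N hN => ⟨(hC0 N hN).1, (hC0 N hN).2.2⟩⟩
  obtain ⟨R, hR, hcmp⟩ := compare hP hf hup
  have htp := Tp_zero hP hf
  refine ⟨?_, ?_, ?_, ?_⟩
  · -- density
    have h1 : Tendsto (fun Z : ℕ => R * ConductorTails.proportion (ct f) 3 X0 Z +
        2 * (((Gm P f Z ∩ Tp).ncard : ℝ) / (Gm P f Z).ncard)) atTop (𝓝 0) := by
      have h2 := ((hdens.comp tendsto_natCast_atTop_atTop).const_mul R).add (htp.const_mul 2)
      simpa using h2
    refine squeeze_zero' (Eventually.of_forall fun Z => by positivity) ?_ h1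
    filter_upwards [hcmp] with Z hZ
    have h3 := hZ X0 {c | nu c ∈ X0} (fun c hc _ => hc)
    have h4 : ((Gm P f Z ∩ ({c | nu c ∈ X0} ∪ Tp)).ncard : ℝ) ≤
        ((Gm P f Z ∩ {c | nu c ∈ X0}).ncard : ℝ) + ((Gm P f Z ∩ Tp).ncard : ℝ) := by
      rw [Set.inter_union_distrib_left]
      exact_mod_cast Set.ncard_union_le _ _
    have h5 := div_le_div_of_nonneg_right h4 (Nat.cast_nonneg (α := ℝ) (Gm P f Z).ncard)
    rw [add_div] at h5
    linarith
  · intro c hc k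
    obtain ⟨h1, h2⟩ := hP.ok c hc
    have := hshafin (nu c) h1 h2 k
    rwa [E_nu] at this
  · intro θ hθ
    obtain ⟨C, hC⟩ := hmom θ hθ
    obtain ⟨c0, hc0, hall⟩ := Gm_all hP (4 * 10 ^ 7)
    refine ⟨max C 1 * max C0 1 / c0, fun Z k hk S hS => ?_⟩
    rcases S.eq_empty_or_nonempty with hSe | hSn
    · rw [hSe, sum_empty]
      positivity
    have hne : (Gm P f Z).Nonempty := by
      obtain ⟨c, hc⟩ := hSn
      have : c ∈ (S : Set (ℤ × ℤ)) := mem_coe.2 hc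
      rw [hS] at this
      exact ⟨c, this.1⟩
    obtain ⟨N, hN⟩ : ∃ N : ℕ, N = max Z (4 * 10 ^ 7) := ⟨_, rfl⟩
    have hN1 : (4 * 10 ^ 7 : ℝ) ≤ (N : ℝ) := by
      rw [hN]
      exact_mod_cast le_max_right Z (4 * 10 ^ 7)
    have hN2 : (Z : ℝ) ≤ (N : ℝ) := by
      rw [hN]
      exact_mod_cast le_max_left Z (4 * 10 ^ 7)
    have h1 := hall f hf Z hne
    rw [← hN] at h1
    obtain ⟨g1, g2, g3⟩ := hC0 N hN1
    obtain ⟨S', hS'⟩ : ∃ S' : Finset (ℤ × ℤ), (S' : Set (ℤ × ℤ)) =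
        ConductorTails.Fam (ct f) 3 N \ X0 :=
      ⟨(g1.subset Set.sdiff_subset).toFinset, Set.Finite.coe_toFinset _⟩
    have h2 := hC N hN1 k hk S' hS'
    have h3 : ∑ c ∈ S, ((2 : ℝ) ^ rk (Ec c) *
        (Nat.card (ShaTor (Ec c) (2 ^ k)) : ℝ) ^ ((1 : ℝ) / k)) ^ θ ≤
        ∑ q ∈ S', ((2 : ℝ) ^ rk (ConductorTails.E q) *
        (Nat.card (ShaTor (ConductorTails.E q) (2 ^ k)) : ℝ) ^ ((1 : ℝ) / k)) ^ θ := by
      have h4 : S.image nu ⊆ S' := by
        intro q hq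
        obtain ⟨c, hc, rfl⟩ := mem_image.1 hq
        have h5 : c ∈ (S : Set (ℤ × ℤ)) := mem_coe.2 hc
        rw [hS] at h5
        obtain ⟨h6, h7⟩ := h5
        rw [← mem_coe, hS']
        exact ⟨mem_Fc hP hf hN2 h6 fun h => h7 (Or.inr h), fun h => h7 (Or.inl h)⟩
      refine le_trans (le_of_eq ?_) (sum_le_sum_of_subset_of_nonneg h4 fun q _ _ => by positivity)
      rw [sum_image fun a _ b _ h => nu_inj h]
      refine sum_congr rfl fun c _ => ?_
      rw [E_nu]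
    refine h3.trans (h2.trans ?_)
    have h5 : (0 : ℝ) ≤ ((ConductorTails.Fam (ct f) 3 N).ncard : ℝ) := Nat.cast_nonneg _
    have hNr : (0 : ℝ) ≤ (N : ℝ) ^ ((2 : ℝ) / 3) := by positivity
    calc C * ((ConductorTails.Fam (ct f) 3 N).ncard : ℝ)
        ≤ max C 1 * ((ConductorTails.Fam (ct f) 3 N).ncard : ℝ) :=
          mul_le_mul_of_nonneg_right (le_max_left _ _) h5
      _ ≤ max C 1 * (max C0 1 * (N : ℝ) ^ ((2 : ℝ) / 3)) := by
          refine mul_le_mul_of_nonneg_left (g3.trans ?_) (by positivity)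
          exact mul_le_mul_of_nonneg_right (le_max_left _ _) hNr
      _ = max C 1 * max C0 1 / c0 * (c0 * (N : ℝ) ^ ((2 : ℝ) / 3)) := by
          field_simp
      _ ≤ _ := mul_le_mul_of_nonneg_left h1 (by positivity)
  · intro A
    -- the comparison of the upper limits
    have hcob : ∀ r : ℕ, IsCoboundedUnder (· ≤ ·) atTop (fun Z : ℕ =>
        ((Gm P f Z ∩ Hi r).ncard : ℝ) / (Gm P f Z).ncard) := fun r =>
      IsBoundedUnder.isCoboundedUnder_le (isBoundedUnder_of ⟨0, fun Z => by positivity⟩)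
    have hbd : ∀ r : ℕ, IsBoundedUnder (· ≤ ·) atTop (fun Z : ℕ =>
        ((Gm P f Z ∩ Hi r).ncard : ℝ) / (Gm P f Z).ncard) := by
      intro r
      refine isBoundedUnder_of ⟨1, fun Z => div_le_one_of_le₀ ?_ (Nat.cast_nonneg _)⟩
      exact_mod_cast Set.ncard_le_ncard Set.inter_subset_left (Gm_fin hP hf Z)
    have hbd2 : ∀ T : Set (ℤ × ℤ), IsBoundedUnder (· ≤ ·) atTop
        (ConductorTails.proportion (ct f) 3 T) := by
      intro T
      refine isBoundedUnder_of_eventually_le (a := 1) (eventually_atTop.2 ⟨4 * 10 ^ 7,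
        fun N hN => div_le_one_of_le₀ ?_ (Nat.cast_nonneg _)⟩)
      exact_mod_cast Set.ncard_le_ncard Set.inter_subset_left (hC0 N hN).1
    have hlo : ∀ r : ℕ, 0 ≤ limsup (fun Z : ℕ =>
        ((Gm P f Z ∩ Hi r).ncard : ℝ) / (Gm P f Z).ncard) atTop := by
      intro r
      refine le_limsup_of_frequently_le (Eventually.frequently
        (Eventually.of_forall fun Z => by positivity)) (hbd r)
    have hle : ∀ r : ℕ, limsup (fun Z : ℕ =>
        ((Gm P f Z ∩ Hi r).ncard : ℝ) / (Gm P f Z).ncard) atTop ≤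
        R * limsup (ConductorTails.proportion (ct f) 3 (ConductorTails.High r)) atTop := by
      intro r
      refine le_of_forall_pos_le_add fun ε hε => ?_
      refine limsup_le_of_le (hcob r) ?_
      have h1 : ∀ᶠ N : ℝ in atTop,
          ConductorTails.proportion (ct f) 3 (ConductorTails.High r) N <
          limsup (ConductorTails.proportion (ct f) 3 (ConductorTails.High r)) atTop +
            ε / (2 * R) :=
        eventually_lt_of_limsup_lt (lt_add_of_pos_right _ (by positivity)) (hbd2 _)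
      have h2 := tendsto_natCast_atTop_atTop (R := ℝ) |>.eventually h1
      have h3 := htp.eventually_lt_const (half_pos hε)
      filter_upwards [h2, h3, hcmp] with Z g1 g2 g3
      have g4 := g3 (ConductorTails.High r) (Hi r) (fun c hc _ => by
        obtain ⟨m, u1, u2⟩ := hc
        refine ⟨m, ?_, ?_⟩
        · rwa [E_nu]
        · rwa [E_nu])
      have g5 := mul_le_mul_of_nonneg_left g1.le hR.le
      have g6 : R * (ε / (2 * R)) = ε / 2 := by field_simp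
      rw [mul_add, g6] at g5
      linarith
    have hz := (htail |A|).const_mul R
    rw [mul_zero] at hz
    refine squeeze_zero_norm (fun r => ?_) hz
    rw [Real.norm_eq_abs, abs_mul, abs_pow, abs_of_nonneg (hlo r)]
    calc |A| ^ r * limsup (fun Z : ℕ => ((Gm P f Z ∩ Hi r).ncard : ℝ) / (Gm P f Z).ncard) atTop
        ≤ |A| ^ r * (R * limsup (ConductorTails.proportion (ct f) 3
            (ConductorTails.High r)) atTop) :=
          mul_le_mul_of_nonneg_left (hle r) (by positivity)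
      _ = _ := by ring

end Pool.Agent.Y679.Cr
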